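import Pool.Agent.L0h1.SJ.StmA

/-!
# Project SJ, module CNA: labels which do not fill the affine space
-/

set_option autoImplicit false

open scoped Classical

namespace Pool.Agent.L0h48.SJ.CNA

open Finset Pool.Agent.L0h1.SJ

variable {J I : Type} [Fintype J] [Fintype I]

/-- the dot product -/
noncomputable def dt (I : Type) [Fintype I] : LinearMap.BilinForm (ZMod 2) (I → ZMod 2) :=
  LinearMap.mk₂ (ZMod 2) (fun x y => ∑ i, x i * y i)
    (by intro x y z; simp only [Pi.add_apply, add_mul, sum_add_distrib])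
    (by intro c x y; simp only [Pi.smul_apply, smul_eq_mul, mul_sum, mul_assoc])
    (by intro x y z; simp only [Pi.add_apply, mul_add, sum_add_distrib])
    (by
      intro c x y
      simp only [Pi.smul_apply, smul_eq_mul, mul_sum]
      exact sum_congr rfl fun i _ => by ring)

theorem dt_apply (x y : I → ZMod 2) : dt I x y = ∑ i, x i * y i := rfl

theorem dt_symm (x y : I → ZMod 2) : dt I x y = dt I y x := by
  rw [dt_apply, dt_apply]
  exact sum_congr rfl fun i _ => mul_comm _ _

theorem dt_nd : (dt I).Nondegenerate := by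
  have h : ∀ x : I → ZMod 2, (∀ y, dt I x y = 0) → x = 0 := by
    intro x hx
    ext i
    have := hx (Pi.single i 1)
    simpa [dt_apply, Pi.single_apply] using this
  refine ⟨fun a ha => h a ha, fun a ha => h a fun y => ?_⟩
  rw [dt_symm]; exact ha y

theorem card_sub (D : Submodule (ZMod 2) (I → ZMod 2)) (s : Finset (I → ZMod 2))
    (h : ∀ x, x ∈ s ↔ x ∈ D) : s.card = 2 ^ Module.finrank (ZMod 2) D := by
  have h1 : Fintype.card {x // x ∈ D} = s.card := Fintype.card_of_subtype s h
  rw [← h1, Module.card_eq_pow_finrank (K := ZMod 2) (V := D), ZMod.card]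

theorem dual_card (D : Submodule (ZMod 2) (I → ZMod 2)) (s t : Finset (I → ZMod 2))
    (hs : ∀ x, x ∈ s ↔ x ∈ D) (ht : ∀ x, x ∈ t ↔ ∀ c ∈ D, ∑ i, c i * x i = 0) :
    s.card * t.card = 2 ^ Fintype.card I := by
  have h1 := card_sub D s hs
  have h2 := card_sub ((dt I).orthogonal D) t (by
    intro x
    rw [ht, LinearMap.BilinForm.mem_orthogonal_iff]
    rfl)
  rw [LinearMap.BilinForm.finrank_orthogonal dt_nd, Module.finrank_fintype_fun_eq_card] at h2
  rw [h1, h2, ← pow_add]
  congr 1
  have h3 := Submodule.finrank_le D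
  rw [Module.finrank_fintype_fun_eq_card] at h3
  omega

theorem add_self (x : ZMod 2) : x + x = 0 := by revert x; decide

/-- the submodule of the linear forms which are constant on the labels -/
def DS (X : J → I → ZMod 2) : Submodule (ZMod 2) (I → ZMod 2) where
  carrier := {c | ∀ p q, ∑ i, c i * (X p i + X q i) = 0}
  add_mem' := by
    intro x y hx hy p q
    have h1 := hx p q
    have h2 := hy p q
    have : ∑ i, (x + y) i * (X p i + X q i) =
        ∑ i, x i * (X p i + X q i) + ∑ i, y i * (X p i + X q i) := by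
      rw [← sum_add_distrib]
      exact sum_congr rfl fun i _ => by rw [Pi.add_apply]; ring
    rw [this, h1, h2, add_zero]
  zero_mem' := by
    intro p q
    simp
  smul_mem' := by
    intro r x hx p q
    have h1 := hx p q
    have : ∑ i, (r • x) i * (X p i + X q i) = r * ∑ i, x i * (X p i + X q i) := by
      rw [mul_sum]
      exact sum_congr rfl fun i _ => by rw [Pi.smul_apply, smul_eq_mul]; ring
    rw [this, h1, mul_zero]

theorem mem_DS (X : J → I → ZMod 2) (c : I → ZMod 2) : c ∈ DX X ↔ c ∈ DS X := by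
  unfold DX
  rw [mem_filter]
  exact ⟨fun h => h.2, fun h => ⟨mem_univ _, h⟩⟩

theorem t_CNA : S_CNA := by
  intro J I _ _ _ D
  set k := Fintype.card I with hk
  set n := Fintype.card J with hn
  set S := univ.filter fun X : J → I → ZMod 2 => DX X = D ∧ ¬ Full X with hS
  have hhalf : (0 : ℝ) ≤ 1 - (1 / 2 : ℝ) ^ k := by
    have : (1 / 2 : ℝ) ^ k ≤ 1 := pow_le_one₀ (by norm_num) (by norm_num)
    linarith
  have hR : (0 : ℝ) ≤ 4 ^ k * (2 ^ k) ^ n * (1 - (1 / 2 : ℝ) ^ k) ^ n := by positivity
  rcases S.eq_empty_or_nonempty with he | ⟨X₀, hX₀⟩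
  · rw [he, card_empty, Nat.cast_zero, zero_mul]
    exact hR
  have hX₀' := hX₀
  rw [hS, mem_filter] at hX₀'
  obtain ⟨-, hD, -⟩ := hX₀'
  set Dp : Finset (I → ZMod 2) := univ.filter fun v => ∀ c ∈ D, ∑ i, c i * v i = 0 with hDp
  have hcard : D.card * Dp.card = 2 ^ k := by
    apply dual_card (DS X₀)
    · intro x
      rw [← hD, mem_DS]
    · intro x
      rw [hDp, mem_filter, ← hD]
      simp only [mem_univ, true_and]
      constructor
      · intro h c hc
        exact h c ((mem_DS X₀ c).2 hc)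
      · intro h c hc
        exact h c ((mem_DS X₀ c).1 hc)
  have h0 : (0 : I → ZMod 2) ∈ Dp := by
    rw [hDp, mem_filter]
    refine ⟨mem_univ _, fun c _ => by simp⟩
  have hD1 : 1 ≤ D.card := by
    rw [Nat.one_le_iff_ne_zero]
    intro h
    rw [h, zero_mul] at hcard
    exact (pow_ne_zero k two_ne_zero) hcard.symm
  -- the missing vector
  have hmiss : ∀ X ∈ S, ∃ a : I → ZMod 2, ∀ q, (fun i => X q i + a i) ∈ Dp.erase 0 := by
    intro X hX
    rw [hS, mem_filter] at hX
    obtain ⟨-, h1, h2⟩ := hX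
    unfold Full at h2
    push Not at h2
    obtain ⟨a, ha, hne⟩ := h2
    refine ⟨a, fun q => ?_⟩
    rw [mem_erase]
    constructor
    · intro h3
      apply hne q
      ext i
      have h4 := congrFun h3 i
      simp only [Pi.zero_apply] at h4
      have h5 : ∀ x y : ZMod 2, x + y = 0 → x = y := by decide
      exact h5 _ _ h4
    · rw [hDp, mem_filter]
      refine ⟨mem_univ _, fun c hc => ?_⟩
      rw [← h1] at hc
      have h3 := ha c hc q
      rw [← h3]
      exact sum_congr rfl fun i _ => by ring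
  choose! a ha using hmiss
  have hcS : S.card ≤ 2 ^ k * (Dp.card - 1) ^ n := by
    set T : Finset ((I → ZMod 2) × (J → I → ZMod 2)) :=
      (univ : Finset (I → ZMod 2)) ×ˢ Fintype.piFinset fun _ : J => Dp.erase 0 with hT
    have hTc : T.card = 2 ^ k * (Dp.card - 1) ^ n := by
      rw [hT, card_product, Fintype.card_piFinset, prod_const, card_univ, card_univ,
        card_erase_of_mem h0, Fintype.card_fun, ZMod.card]
    rw [← hTc]
    apply card_le_card_of_injOn (fun X => (a X, fun q i => X q i + a X i))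
    · intro X hX
      rw [mem_coe, hT, mem_product, Fintype.mem_piFinset]
      exact ⟨mem_univ _, fun q => ha X hX q⟩
    · intro X _ X' _ h
      simp only [Prod.mk.injEq] at h
      obtain ⟨h1, h2⟩ := h
      ext q i
      have h3 := congrFun (congrFun h2 q) i
      rw [← h1] at h3
      exact add_right_cancel h3
  have hDp1 : 1 ≤ Dp.card := card_pos.2 ⟨0, h0⟩
  have hfin : S.card * D.card ^ n ≤ 2 ^ k * (2 ^ k - 1) ^ n := by
    calc S.card * D.card ^ n ≤ 2 ^ k * (Dp.card - 1) ^ n * D.card ^ n :=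
          Nat.mul_le_mul_right _ hcS
      _ = 2 ^ k * (D.card * (Dp.card - 1)) ^ n := by rw [mul_assoc, ← mul_pow, mul_comm (D.card)]
      _ ≤ 2 ^ k * (2 ^ k - 1) ^ n := by
          apply Nat.mul_le_mul_left
          apply Nat.pow_le_pow_left
          rw [Nat.mul_sub, hcard, mul_one]
          omega
  have h2k : (1 : ℝ) ≤ 2 ^ k := one_le_pow₀ (by norm_num)
  have hfin' : (S.card : ℝ) * (D.card : ℝ) ^ n ≤ 2 ^ k * (2 ^ k - 1) ^ n := by
    have h1 : ((S.card * D.card ^ n : ℕ) : ℝ) ≤ ((2 ^ k * (2 ^ k - 1) ^ n : ℕ) : ℝ) := by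
      exact_mod_cast hfin
    push_cast [Nat.cast_sub (Nat.one_le_two_pow)] at h1
    exact h1
  refine hfin'.trans ?_
  have e1 : (4 : ℝ) ^ k * (2 ^ k) ^ n * (1 - (1 / 2 : ℝ) ^ k) ^ n = 4 ^ k * (2 ^ k - 1) ^ n := by
    rw [mul_assoc, ← mul_pow]
    congr 2
    rw [mul_sub, mul_one, ← mul_pow]
    norm_num
  rw [e1]
  apply mul_le_mul_of_nonneg_right
  · exact pow_le_pow_left₀ (by norm_num) (by norm_num) k
  · apply pow_nonneg; linarith

end Pool.Agent.L0h48.SJ.CNA
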