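import Pool.Agent.L0h1.SJ.StmA

/-!
# Project SJ, module RBD: the number of the relations
-/

set_option autoImplicit false

open scoped Classical

namespace Pool.Agent.L0h48.SJ.RBD

open Finset Pool.Agent.L0h1.SJ

variable {J I : Type} [Fintype J] [Fintype I]

theorem add_self (x : ZMod 2) : x + x = 0 := by revert x; decide

/-- finitely many labels generate -/
theorem exists_gen (X : J → I → ZMod 2) (k₀ : J) : ∃ T : Finset J, k₀ ∈ T ∧
    T.card ≤ Fintype.card I + 1 ∧ ∀ q, (fun i => X q i + X k₀ i) ∈
      Submodule.span (ZMod 2) ((fun m => (fun i => X m i + X k₀ i)) '' (T : Set J)) := by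
  set g : J → I → ZMod 2 := fun m i => X m i + X k₀ i with hg
  obtain ⟨b, hb1, hb2, hb3⟩ := exists_linearIndependent (ZMod 2) (Set.range g)
  have hbf : b.Finite := Set.toFinite b
  haveI : Nonempty J := ⟨k₀⟩
  choose! f hf using fun v (hv : v ∈ b) => hb1 hv
  have hbc : hbf.toFinset.card ≤ Fintype.card I := by
    have h1 := hb3.cardinalMk_le_finrank
    have h2 : Module.finrank (ZMod 2) (I → ZMod 2) = Fintype.card I :=
      Module.finrank_fintype_fun_eq_card _
    rw [h2] at h1
    have : Fintype b := hbf.fintype
    rw [Cardinal.mk_fintype] at h1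
    have h3 : Fintype.card b ≤ Fintype.card I := by exact_mod_cast h1
    rwa [← Set.toFinset_card, ← Set.Finite.toFinset_eq_toFinset hbf] at h3
  refine ⟨insert k₀ (hbf.toFinset.image f), mem_insert_self _ _, ?_, fun q => ?_⟩
  · refine (card_insert_le _ _).trans ?_
    have := card_image_le (s := hbf.toFinset) (f := f)
    omega
  · have h1 : g q ∈ Submodule.span (ZMod 2) b := by
      rw [hb2]
      exact Submodule.subset_span ⟨q, rfl⟩
    refine Submodule.span_mono ?_ h1
    intro v hv
    refine ⟨f v, ?_, hf v hv⟩
    rw [mem_coe, mem_insert, mem_image]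
    exact Or.inr ⟨v, hbf.mem_toFinset.2 hv, rfl⟩

theorem t_RBD : S_RBD := by
  intro J I _ _ _ X
  obtain ⟨k₀⟩ := ‹Nonempty J›
  obtain ⟨T, hk₀, hT, hgen⟩ := exists_gen X k₀
  set r : (J → I → ZMod 2) → (T → I → ZMod 2) := fun y k => y k with hr
  have h1 := card_le_mul_card_image (f := r) (RX X) ((DX X).card ^ Fintype.card J) (by
    intro c _
    rcases ((RX X).filter fun y => r y = c).eq_empty_or_nonempty with he | ⟨y₀, hy₀⟩
    · rw [he, card_empty]; exact Nat.zero_le _
    rw [mem_filter, RX, mem_filter] at hy₀
    obtain ⟨⟨-, hy₀⟩, hc₀⟩ := hy₀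
    have hcard : (Fintype.piFinset fun _ : J => DX X).card = (DX X).card ^ Fintype.card J := by
      rw [Fintype.card_piFinset, prod_const, card_univ]
    rw [← hcard]
    apply card_le_card_of_injOn (fun y q i => y q i + y₀ q i)
    · intro y hy
      rw [mem_coe, mem_filter, RX, mem_filter] at hy
      obtain ⟨⟨-, hy⟩, hc⟩ := hy
      rw [mem_coe, Fintype.mem_piFinset]
      intro q
      set z : J → I → ZMod 2 := fun q i => y q i + y₀ q i with hz
      have hzr : ∀ p q, ∑ i, (z p i + z q i) * (X p i + X q i) = 0 := by
        intro p q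
        have e1 := hy p q
        have e2 := hy₀ p q
        have e3 : ∑ i, (z p i + z q i) * (X p i + X q i) =
            ∑ i, (y p i + y q i) * (X p i + X q i) +
              ∑ i, (y₀ p i + y₀ q i) * (X p i + X q i) := by
          rw [← sum_add_distrib]
          refine sum_congr rfl fun i _ => ?_
          simp only [hz]
          ring
        rw [e3, e1, e2, add_zero]
      have hz0 : ∀ m ∈ T, z m = 0 := by
        intro m hm
        ext i
        have e1 : y m i = y₀ m i := congrFun (congrFun (hc.trans hc₀.symm) ⟨m, hm⟩) i
        simp only [hz, Pi.zero_apply]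
        rw [e1, add_self]
      -- `z q` is orthogonal to the differences with the labels in `T`
      have ho : ∀ m ∈ T, ∑ i, z q i * (X q i + X m i) = 0 := by
        intro m hm
        have e1 := hzr q m
        rw [hz0 m hm] at e1
        simpa using e1
      have ho2 : ∀ v ∈ Submodule.span (ZMod 2)
          ((fun m => (fun i => X m i + X k₀ i)) '' (T : Set J)), ∑ i, z q i * v i = 0 := by
        intro v hv
        induction hv using Submodule.span_induction with
        | mem x hx =>
          obtain ⟨m, hm, rfl⟩ := hx
          have e1 := ho m hm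
          have e2 := ho k₀ hk₀
          have e3 : ∑ i, z q i * (X m i + X k₀ i) = ∑ i, z q i * (X q i + X m i) +
              ∑ i, z q i * (X q i + X k₀ i) := by
            rw [← sum_add_distrib]
            refine sum_congr rfl fun i _ => ?_
            have := add_self (X q i)
            linear_combination (-z q i) * this
          rw [e3, e1, e2, add_zero]
        | zero => simp
        | add x y _ _ hx hy =>
          simp only [Pi.add_apply, mul_add, sum_add_distrib]
          rw [hx, hy, add_zero]
        | smul c x _ hx =>
          have : ∑ i, z q i * (c • x) i = c * ∑ i, z q i * x i := by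
            rw [mul_sum]
            exact sum_congr rfl fun i _ => by rw [Pi.smul_apply, smul_eq_mul]; ring
          rw [this, hx, mul_zero]
      show z q ∈ DX X
      unfold DX
      rw [mem_filter]
      refine ⟨mem_univ _, fun p p' => ?_⟩
      have e1 := ho2 _ (hgen p)
      have e2 := ho2 _ (hgen p')
      have e3 : ∑ i, z q i * (X p i + X p' i) = ∑ i, z q i * (X p i + X k₀ i) +
          ∑ i, z q i * (X p' i + X k₀ i) := by
        rw [← sum_add_distrib]
        refine sum_congr rfl fun i _ => ?_
        have := add_self (X k₀ i)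
        linear_combination (-z q i) * this
      rw [e3, e1, e2, add_zero]
    · intro y _ y' _ h
      ext q i
      exact add_right_cancel (congrFun (congrFun h q) i))
  have h2 : ((RX X).image r).card ≤ 2 ^ (Fintype.card I * (Fintype.card I + 1)) := by
    refine (card_le_univ _).trans ?_
    rw [Fintype.card_fun, Fintype.card_fun, ZMod.card, Fintype.card_coe, ← pow_mul]
    apply Nat.pow_le_pow_right (by norm_num)
    exact Nat.mul_le_mul_left _ hT
  calc (RX X).card ≤ (DX X).card ^ Fintype.card J * ((RX X).image r).card := h1
    _ ≤ (DX X).card ^ Fintype.card J * 2 ^ (Fintype.card I * (Fintype.card I + 1)) :=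
        Nat.mul_le_mul_left _ h2
    _ = _ := mul_comm _ _

end Pool.Agent.L0h48.SJ.RBD
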