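import Pool.Agent.L0h1.SJ.StmA

/-!
# Project SJ, module NSA: the tuples whose labels do not fill an affine space
-/

set_option autoImplicit false

open scoped Classical

namespace Pool.Agent.L0h48.SJ.NSA

open Finset Pool.Agent.L0h1.SJ

variable {t : ℕ} {K : Fin t → ℕ} {U : Fin t → Type} [∀ l, Fintype (U l)] {J : Type} [Fintype J]

/-- a tuple is given by its small coordinates and its labels -/
def eq (K : Fin t → ℕ) (U : Fin t → Type) (J : Type) :
    Tu K U J ≃ (∀ l, Fin (K l) → U l → ZMod 2) × (J → Ix K → ZMod 2) where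
  toFun ξ := (fun l i v => ξ l i (Sum.inl v), fun k i => ξ i.1 i.2 (Sum.inr k))
  invFun p := fun l i => Sum.elim (fun v => p.1 l i v) (fun k => p.2 k ⟨l, i⟩)
  left_inv ξ := by
    ext l i v
    rcases v with v | k
    · rfl
    · rfl
  right_inv p := rfl

theorem card_small : Fintype.card (∀ l, Fin (K l) → U l → ZMod 2) =
    2 ^ ∑ l, K l * Fintype.card (U l) := by
  rw [Fintype.card_pi, ← Finset.prod_pow_eq_pow_sum]
  refine prod_congr rfl fun l _ => ?_
  rw [Fintype.card_fun, Fintype.card_fun, ZMod.card, Fintype.card_fin, ← pow_mul, mul_comm]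

/-- the sum over the labels -/
theorem lab (hR : S_RBD) (hC : S_CNA) (J I : Type) [Fintype J] [Fintype I] [Nonempty J] :
    ∑ X ∈ univ.filter (fun X : J → I → ZMod 2 => ¬ Full X), ((RX X).card : ℝ) ≤
      2 ^ (2 ^ Fintype.card I) * (2 ^ (Fintype.card I * (Fintype.card I + 1)) *
        (4 ^ Fintype.card I * (2 ^ Fintype.card I) ^ Fintype.card J *
          (1 - (1 / 2 : ℝ) ^ Fintype.card I) ^ Fintype.card J)) := by
  have h3 : ∑ X ∈ univ.filter (fun X : J → I → ZMod 2 => ¬ Full X), ((RX X).card : ℝ) =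
      ∑ D : Finset (I → ZMod 2), ∑ X ∈ univ.filter (fun X : J → I → ZMod 2 =>
        DX X = D ∧ ¬ Full X), ((RX X).card : ℝ) := by
    rw [← sum_fiberwise (univ.filter (fun X : J → I → ZMod 2 => ¬ Full X)) (fun X => DX X)]
    refine sum_congr rfl fun D _ => ?_
    rw [filter_filter]
    refine sum_congr ?_ fun _ _ => rfl
    ext X
    simp only [mem_filter, mem_univ, true_and]
    exact and_comm
  rw [h3]
  have h4 : ∀ D : Finset (I → ZMod 2), ∑ X ∈ univ.filter (fun X : J → I → ZMod 2 =>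
      DX X = D ∧ ¬ Full X), ((RX X).card : ℝ) ≤
      2 ^ (Fintype.card I * (Fintype.card I + 1)) *
        (4 ^ Fintype.card I * (2 ^ Fintype.card I) ^ Fintype.card J *
          (1 - (1 / 2 : ℝ) ^ Fintype.card I) ^ Fintype.card J) := by
    intro D
    calc ∑ X ∈ univ.filter (fun X : J → I → ZMod 2 => DX X = D ∧ ¬ Full X),
          ((RX X).card : ℝ) ≤ ∑ X ∈ univ.filter (fun X : J → I → ZMod 2 =>
          DX X = D ∧ ¬ Full X), (2 ^ (Fintype.card I * (Fintype.card I + 1)) *
            (D.card : ℝ) ^ Fintype.card J) := by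
          apply sum_le_sum
          intro X hX
          rw [mem_filter] at hX
          have h5 := hR J I X
          rw [hX.2.1] at h5
          exact_mod_cast h5
      _ = 2 ^ (Fintype.card I * (Fintype.card I + 1)) * (((univ.filter (fun X : J → I → ZMod 2 =>
          DX X = D ∧ ¬ Full X)).card : ℝ) * (D.card : ℝ) ^ Fintype.card J) := by
          rw [sum_const, nsmul_eq_mul]; ring
      _ ≤ _ := mul_le_mul_of_nonneg_left (hC J I D) (by positivity)
  refine (sum_le_sum fun D _ => h4 D).trans ?_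
  have hc : (univ : Finset (Finset (I → ZMod 2))).card = 2 ^ 2 ^ Fintype.card I := by
    rw [card_univ, Fintype.card_finset, Fintype.card_fun, ZMod.card]
  rw [sum_const, hc, nsmul_eq_mul]
  push_cast
  exact le_rfl

/-- the same for the tuples -/
theorem fib_le (hR : S_RBD) (hC : S_CNA) {T S J I : Type} [Fintype T] [Fintype S] [Fintype J]
    [Fintype I] [Nonempty J] (e : T ≃ S × (J → I → ZMod 2)) :
    ∑ ξ ∈ univ.filter (fun ξ : T => ¬ Full (e ξ).2), ((RX (e ξ).2).card : ℝ) ≤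
      Fintype.card S * (2 ^ (2 ^ Fintype.card I) * (2 ^ (Fintype.card I * (Fintype.card I + 1)) *
        (4 ^ Fintype.card I * (2 ^ Fintype.card I) ^ Fintype.card J *
          (1 - (1 / 2 : ℝ) ^ Fintype.card I) ^ Fintype.card J))) := by
  have h1 : ∑ ξ ∈ univ.filter (fun ξ : T => ¬ Full (e ξ).2), ((RX (e ξ).2).card : ℝ) =
      Fintype.card S *
        ∑ X ∈ univ.filter (fun X : J → I → ZMod 2 => ¬ Full X), ((RX X).card : ℝ) := by
    rw [sum_filter, ← e.symm.sum_comp, Fintype.sum_prod_type]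
    simp only [Equiv.apply_symm_apply]
    rw [sum_const, card_univ, nsmul_eq_mul, sum_filter]
  rw [h1]
  exact mul_le_mul_of_nonneg_left (lab hR hC J I) (Nat.cast_nonneg _)

theorem t_NSA : S_RBD → S_CNA → S_NSA := by
  intro hR hC t K ε hε
  set k := Fintype.card (Ix K) with hk
  set M := ∑ l, K l with hM
  set ρ : ℝ := 1 - (1 / 2 : ℝ) ^ k with hρ
  have hρ0 : 0 ≤ ρ := by
    have : (1 / 2 : ℝ) ^ k ≤ 1 := pow_le_one₀ (by norm_num) (by norm_num)
    linarith
  have hρ1 : ρ < 1 := by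
    have : (0 : ℝ) < (1 / 2 : ℝ) ^ k := by positivity
    linarith
  set A : ℝ := 2 ^ (2 ^ k) * 2 ^ (k * (k + 1)) * 4 ^ k with hA
  have hA0 : 0 < A := by positivity
  set δ : ℝ := min 1 (ε / A) with hδ
  have hδ0 : 0 < δ := lt_min one_pos (div_pos hε hA0)
  obtain ⟨C₁, hC₁⟩ := exists_pow_lt_of_lt_one (show 0 < δ / 2 ^ M by positivity) hρ1
  refine ⟨C₁ + 1, ?_⟩
  intro U _ J _ hJ
  set n := Fintype.card J with hn
  have hsz : 1 ≤ sz U := by unfold sz; omega
  have hn1 : 1 ≤ n := by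
    calc 1 ≤ (C₁ + 1) * sz U := Nat.one_le_iff_ne_zero.2 (by positivity)
      _ ≤ n := hJ
  haveI : Nonempty J := Fintype.card_pos_iff.1 hn1
  have h1 : ∑ ξ ∈ univ.filter (fun ξ : Tu K U J => ¬ Full (Xf ξ)), ((RX (Xf ξ)).card : ℝ) ≤
      2 ^ (∑ l, K l * Fintype.card (U l)) * (A * (2 ^ k) ^ n * ρ ^ n) := by
    have h2 := fib_le hR hC (eq K U J)
    rw [card_small] at h2
    refine h2.trans (le_of_eq ?_)
    push_cast
    rw [← hk, ← hn, ← hρ, hA]
    ring
  have h3 : ρ ^ n * 2 ^ (∑ l, K l * Fintype.card (U l)) ≤ δ := by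
    have e1 : ∑ l, K l * Fintype.card (U l) ≤ M * sz U := by
      rw [hM, sum_mul]
      apply sum_le_sum
      intro l _
      apply Nat.mul_le_mul_left
      unfold sz
      have : Fintype.card (U l) ≤ ∑ l, Fintype.card (U l) :=
        single_le_sum (f := fun l => Fintype.card (U l)) (fun _ _ => Nat.zero_le _) (mem_univ l)
      omega
    have e2 : ρ ^ n ≤ (ρ ^ C₁) ^ sz U := by
      rw [← pow_mul]
      apply pow_le_pow_of_le_one hρ0 hρ1.le
      calc C₁ * sz U ≤ (C₁ + 1) * sz U := Nat.mul_le_mul_right _ (by omega)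
        _ ≤ n := hJ
    have e3 : (2 : ℝ) ^ (∑ l, K l * Fintype.card (U l)) ≤ (2 ^ M) ^ sz U := by
      rw [← pow_mul]
      exact pow_le_pow_right₀ (by norm_num) e1
    calc ρ ^ n * 2 ^ (∑ l, K l * Fintype.card (U l)) ≤ (ρ ^ C₁) ^ sz U * (2 ^ M) ^ sz U :=
          mul_le_mul e2 e3 (by positivity) (by positivity)
      _ = (ρ ^ C₁ * 2 ^ M) ^ sz U := by rw [mul_pow]
      _ ≤ δ ^ sz U := by
          apply pow_le_pow_left₀ (by positivity)
          rw [lt_div_iff₀ (by positivity)] at hC₁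
          exact hC₁.le
      _ ≤ δ ^ 1 := pow_le_pow_of_le_one hδ0.le (min_le_left _ _) hsz
      _ = δ := pow_one δ
  have h4 : A * δ ≤ ε := by
    calc A * δ ≤ A * (ε / A) := mul_le_mul_of_nonneg_left (min_le_right _ _) hA0.le
      _ = ε := by field_simp
  refine h1.trans ?_
  calc 2 ^ (∑ l, K l * Fintype.card (U l)) * (A * (2 ^ k) ^ n * ρ ^ n)
      = A * (ρ ^ n * 2 ^ (∑ l, K l * Fintype.card (U l))) * (2 ^ k) ^ n := by ring
    _ ≤ A * δ * (2 ^ k) ^ n := by
        apply mul_le_mul_of_nonneg_right _ (by positivity)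
        exact mul_le_mul_of_nonneg_left h3 hA0.le
    _ ≤ ε * (2 ^ k) ^ n := mul_le_mul_of_nonneg_right h4 (by positivity)
    _ = ε * 2 ^ (n * k) := by rw [← pow_mul, mul_comm k n]

end Pool.Agent.L0h48.SJ.NSA
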